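import Pool.Agent.MP_bd94e8_al.H89.Spec

/-!
Basic facts on roots of weakly positive unit forms.
-/

set_option autoImplicit false
set_option linter.unusedSectionVars false

namespace Pool.Agent.MP_bd94e8_al.H89.LwA

variable {I : Type} [Fintype I] {G : I → I → ℤ}

open Classical in
/-- The basis vector. -/
noncomputable def ev (a : I) : I → ℤ := fun b => if b = a then 1 else 0

@[simp] theorem ev_self (a : I) : ev a a = 1 := by simp [ev]

theorem ev_ne {a b : I} (h : b ≠ a) : ev a b = 0 := by simp [ev, h]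

theorem ev_nonneg (a : I) : 0 ≤ ev a := fun b => by
  by_cases h : b = a
  · simp [h]
  · simp [ev_ne h]

theorem ev_le {x : I → ℤ} (hx : 0 ≤ x) {a : I} (ha : 0 < x a) : ev a ≤ x := fun b => by
  by_cases h : b = a
  · subst h; simp only [ev_self]; omega
  · rw [ev_ne h]; exact hx b

theorem bil_add_left (x y z : I → ℤ) : bil G (x + y) z = bil G x z + bil G y z := by
  simp only [bil, Pi.add_apply, add_mul, Finset.sum_add_distrib]

theorem bil_add_right (x y z : I → ℤ) : bil G x (y + z) = bil G x y + bil G x z := by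
  simp only [bil, Pi.add_apply, mul_add, Finset.sum_add_distrib]

theorem bil_sub_left (x y z : I → ℤ) : bil G (x - y) z = bil G x z - bil G y z := by
  simp only [bil, Pi.sub_apply, sub_mul, Finset.sum_sub_distrib]

theorem bil_sub_right (x y z : I → ℤ) : bil G x (y - z) = bil G x y - bil G x z := by
  simp only [bil, Pi.sub_apply, mul_sub, Finset.sum_sub_distrib]

theorem bil_smul_left (c : ℤ) (x y : I → ℤ) : bil G (c • x) y = c * bil G x y := by
  simp only [bil, Pi.smul_apply, smul_eq_mul, Finset.mul_sum, mul_assoc]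

theorem bil_smul_right (c : ℤ) (x y : I → ℤ) : bil G x (c • y) = c * bil G x y := by
  simp only [bil, Pi.smul_apply, smul_eq_mul, Finset.mul_sum]
  exact Finset.sum_congr rfl fun a _ => Finset.sum_congr rfl fun b _ => by ring

theorem bil_zero_left (y : I → ℤ) : bil G 0 y = 0 := by simp [bil]

theorem bil_zero_right (x : I → ℤ) : bil G x 0 = 0 := by simp [bil]

theorem bil_sum_left {J : Type} (s : Finset J) (f : J → I → ℤ) (y : I → ℤ) :
    bil G (∑ j ∈ s, f j) y = ∑ j ∈ s, bil G (f j) y := by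
  classical
  induction s using Finset.induction_on with
  | empty => simp [bil_zero_left]
  | insert a s h ih => rw [Finset.sum_insert h, Finset.sum_insert h, bil_add_left, ih]

theorem bil_sum_right {J : Type} (s : Finset J) (f : J → I → ℤ) (y : I → ℤ) :
    bil G y (∑ j ∈ s, f j) = ∑ j ∈ s, bil G y (f j) := by
  classical
  induction s using Finset.induction_on with
  | empty => simp [bil_zero_right]
  | insert a s h ih => rw [Finset.sum_insert h, Finset.sum_insert h, bil_add_right, ih]

theorem bil_eq_gr (x y : I → ℤ) : bil G x y = ∑ b, gr G x b * y b := by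
  simp only [bil, gr, Finset.sum_mul]
  exact Finset.sum_comm

theorem bil_ev (x : I → ℤ) (b : I) : bil G x (ev b) = gr G x b := by
  rw [bil_eq_gr, Finset.sum_eq_single b]
  · simp
  · intro c _ hc; rw [ev_ne hc, mul_zero]
  · simp

theorem gr_ev (a b : I) : gr G (ev a) b = G a b := by
  rw [gr, Finset.sum_eq_single a]
  · simp
  · intro c _ hc; rw [ev_ne hc, zero_mul]
  · simp

theorem gr_add (x y : I → ℤ) (b : I) : gr G (x + y) b = gr G x b + gr G y b := by
  rw [← bil_ev, ← bil_ev, ← bil_ev, bil_add_left]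

theorem gr_sub (x y : I → ℤ) (b : I) : gr G (x - y) b = gr G x b - gr G y b := by
  rw [← bil_ev, ← bil_ev, ← bil_ev, bil_sub_left]

theorem gr_smul (c : ℤ) (x : I → ℤ) (b : I) : gr G (c • x) b = c * gr G x b := by
  rw [← bil_ev, ← bil_ev, bil_smul_left]

/-- Weakly positive unit forms on an arbitrary finite set. -/
structure UF (G : I → I → ℤ) : Prop where
  symm : ∀ a b, G a b = G b a
  diag : ∀ a, G a a = 2
  wp : ∀ x : I → ℤ, 0 ≤ x → x ≠ 0 → 0 < bil G x x

theorem _root_.Pool.Agent.MP_bd94e8_al.H89.UForm.uf {ι Ω : Type} [Fintype ι] [Fintype Ω]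
    {G : ι ⊕ Ω → ι ⊕ Ω → ℤ} (h : UForm G) : UF G := ⟨h.symm, h.diag, h.wp⟩

/-- Positive roots. -/
def Root (G : I → I → ℤ) (x : I → ℤ) : Prop := 0 ≤ x ∧ bil G x x = 2

namespace UF

theorem comm (h : UF G) (x y : I → ℤ) : bil G x y = bil G y x := by
  simp only [bil]
  rw [Finset.sum_comm]
  exact Finset.sum_congr rfl fun a _ => Finset.sum_congr rfl fun b _ => by rw [h.symm b a]; ring

theorem ev_bil (h : UF G) (x : I → ℤ) (b : I) : bil G (ev b) x = gr G x b := by
  rw [h.comm, bil_ev]

theorem sq_add (h : UF G) (x y : I → ℤ) :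
    bil G (x + y) (x + y) = bil G x x + 2 * bil G x y + bil G y y := by
  rw [bil_add_left, bil_add_right, bil_add_right, h.comm y x]; ring

theorem sq_sub (h : UF G) (x y : I → ℤ) :
    bil G (x - y) (x - y) = bil G x x - 2 * bil G x y + bil G y y := by
  rw [bil_sub_left, bil_sub_right, bil_sub_right, h.comm y x]; ring

theorem root_ev (h : UF G) (a : I) : Root G (ev a) :=
  ⟨ev_nonneg a, by rw [bil_ev, gr_ev, h.diag]⟩

theorem even (h : UF G) (x : I → ℤ) : Even (bil G x x) := by
  classical
  have key : ∀ s : Finset I, Even (bil G (∑ a ∈ s, x a • ev a) (∑ a ∈ s, x a • ev a)) := by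
    intro s
    induction s using Finset.induction_on with
    | empty => simp [bil_zero_left]
    | insert a s ha ih =>
      rw [Finset.sum_insert ha, h.sq_add, bil_smul_left, bil_smul_right, (h.root_ev a).2]
      refine Even.add (Even.add ?_ (even_two_mul _)) ih
      exact ⟨x a * x a, by ring⟩
  have hx : x = ∑ a, x a • ev a := by
    funext b
    rw [Finset.sum_apply, Finset.sum_eq_single b]
    · simp
    · intro c _ hc; simp [ev_ne hc.symm]
    · simp
  rw [hx]; exact key _

theorem two_le (h : UF G) {x : I → ℤ} (hx : 0 ≤ x) (hne : x ≠ 0) : 2 ≤ bil G x x := by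
  have h1 := h.wp x hx hne
  obtain ⟨m, hm⟩ := h.even x
  omega

theorem nonneg (h : UF G) {x : I → ℤ} (hx : 0 ≤ x) : 0 ≤ bil G x x := by
  by_cases hne : x = 0
  · rw [hne, bil_zero_left]
  · exact (h.wp x hx hne).le

theorem root_ne_zero {x : I → ℤ} (hx : Root G x) : x ≠ 0 := by
  intro h0
  have := hx.2
  rw [h0, bil_zero_left] at this
  omega

/-- Two roots have product at least `-1`. -/
theorem root_ge (h : UF G) {x y : I → ℤ} (hx : Root G x) (hy : Root G y) : -1 ≤ bil G x y := by
  have hne : x + y ≠ 0 := by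
    intro h0
    apply root_ne_zero hx
    funext a
    have h1 := congrFun h0 a
    have h2 := hx.1 a
    have h3 := hy.1 a
    simp only [Pi.add_apply, Pi.zero_apply] at h1 h2 h3 ⊢
    omega
  have := h.wp _ (add_nonneg hx.1 hy.1) hne
  rw [h.sq_add, hx.2, hy.2] at this
  omega

/-- Two different comparable roots have product at most `1`. -/
theorem root_le (h : UF G) {x y : I → ℤ} (hx : Root G x) (hy : Root G y) (hle : y ≤ x)
    (hne : x ≠ y) : bil G x y ≤ 1 := by
  have := h.wp _ (sub_nonneg.2 hle) (sub_ne_zero.2 hne)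
  rw [h.sq_sub, hx.2, hy.2] at this
  omega

theorem gr_ge (h : UF G) {x : I → ℤ} (hx : Root G x) (a : I) : -1 ≤ gr G x a := by
  rw [← bil_ev]; exact h.root_ge hx (h.root_ev a)

theorem gr_le (h : UF G) {x : I → ℤ} (hx : Root G x) {a : I} (ha : 0 < x a) (hne : x ≠ ev a) :
    gr G x a ≤ 1 := by
  rw [← bil_ev]; exact h.root_le hx (h.root_ev a) (ev_le hx.1 ha) hne

theorem sum_gr {x : I → ℤ} (hx : Root G x) : ∑ a, gr G x a * x a = 2 := by
  rw [← bil_eq_gr, hx.2]

theorem root_sub (h : UF G) {x : I → ℤ} (hx : Root G x) {a : I} (ha : 0 < x a)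
    (hg : gr G x a = 1) : Root G (x - ev a) :=
  ⟨sub_nonneg.2 (ev_le hx.1 ha), by rw [h.sq_sub, hx.2, bil_ev, hg, (h.root_ev a).2]; norm_num⟩

theorem root_add (h : UF G) {x : I → ℤ} (hx : Root G x) {a : I} (hg : gr G x a = -1) :
    Root G (x + ev a) :=
  ⟨add_nonneg hx.1 (ev_nonneg a), by rw [h.sq_add, hx.2, bil_ev, hg, (h.root_ev a).2]; norm_num⟩

/-- The support of a root is connected through negative edges. -/
theorem conn (h : UF G) {x : I → ℤ} (hx : Root G x) (S : I → Prop) {a b : I} (ha : 0 < x a)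
    (hb : 0 < x b) (hS : S a) (hT : ¬ S b) :
    ∃ c d, S c ∧ ¬ S d ∧ 0 < x c ∧ 0 < x d ∧ G c d < 0 := by
  classical
  by_contra hcon
  push Not at hcon
  set u : I → ℤ := fun c => if S c then x c else 0 with hu
  set v : I → ℤ := fun c => if S c then 0 else x c with hv
  have hx0 : ∀ c, 0 ≤ x c := hx.1
  have huv : x = u + v := by
    funext c
    by_cases hc : S c <;> simp [hu, hv, hc]
  have hu0 : 0 ≤ u := fun c => by
    by_cases hc : S c <;> simp [hu, hc, hx0]
  have hv0 : 0 ≤ v := fun c => by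
    by_cases hc : S c <;> simp [hv, hc, hx0]
  have h1 : 2 ≤ bil G u u := h.two_le hu0 fun h0 => by
    have := congrFun h0 a
    simp only [hu, hS, if_true, Pi.zero_apply] at this
    omega
  have h2 : 2 ≤ bil G v v := h.two_le hv0 fun h0 => by
    have := congrFun h0 b
    simp only [hv, hT, if_false, Pi.zero_apply] at this
    omega
  have h3 : 0 ≤ bil G u v := by
    refine Finset.sum_nonneg fun c _ => Finset.sum_nonneg fun d _ => ?_
    by_cases hc : S c
    · by_cases hd : S d
      · simp [hv, hd]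
      · simp only [hu, hv, hc, hd, if_true, if_false]
        rcases (hx0 c).eq_or_lt with h4 | h4
        · simp [← h4]
        rcases (hx0 d).eq_or_lt with h5 | h5
        · simp [← h5]
        exact mul_nonneg (mul_nonneg h4.le (hcon c d hc hd h4 h5)) h5.le
    · simp [hu, hc]
  have h4 := hx.2
  rw [huv, h.sq_add] at h4
  omega

end UF

/-- Minimal nonnegative vectors with a property. -/
theorem exists_min (P : (I → ℤ) → Prop) {x : I → ℤ} (hx : 0 ≤ x) (hP : P x) :
    ∃ w, 0 ≤ w ∧ w ≤ x ∧ P w ∧ ∀ w', 0 ≤ w' → w' ≤ w → P w' → w' = w := by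
  have key : ∀ n : ℕ, ∀ x : I → ℤ, 0 ≤ x → P x → ∑ a, x a ≤ n →
      ∃ w, 0 ≤ w ∧ w ≤ x ∧ P w ∧ ∀ w', 0 ≤ w' → w' ≤ w → P w' → w' = w := by
    intro n
    induction n using Nat.strong_induction_on with
    | _ n ih =>
      intro x hx hP hn
      by_cases hmin : ∀ w', 0 ≤ w' → w' ≤ x → P w' → w' = x
      · exact ⟨x, hx, le_rfl, hP, hmin⟩
      · push Not at hmin
        obtain ⟨y, hy0, hyx, hPy, hne⟩ := hmin
        have hlt : ∑ a, y a < ∑ a, x a := by
          obtain ⟨a, ha⟩ := Function.ne_iff.1 hne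
          exact Finset.sum_lt_sum (fun b _ => hyx b) ⟨a, Finset.mem_univ a, lt_of_le_of_ne (hyx a) ha⟩
        have h0 : 0 ≤ ∑ a, y a := Finset.sum_nonneg fun a _ => hy0 a
        obtain ⟨w, h1, h2, h3⟩ := ih (∑ a, y a).toNat (by omega) y hy0 hPy (by omega)
        exact ⟨w, h1, h2.trans hyx, h3⟩
  exact key (∑ a, x a).toNat x hx hP (by omega)

/-- A root that is minimal among the roots containing `a` and `b`. -/
structure Min (G : I → I → ℤ) (w : I → ℤ) (a b : I) : Prop where
  root : Root G w
  ne : a ≠ b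
  fst : w a = 1
  snd : w b = 1
  gfst : gr G w a = 1
  gsnd : gr G w b = 1
  rest : ∀ c, 0 < w c → c ≠ a → c ≠ b → gr G w c = 0

theorem Min.symm {w : I → ℤ} {a b : I} (h : Min G w a b) : Min G w b a :=
  ⟨h.root, h.ne.symm, h.snd, h.fst, h.gsnd, h.gfst, fun c h1 h2 h3 => h.rest c h1 h3 h2⟩

/-- The product of a minimal root with a vector supported in its support. -/
theorem Min.bil_eq {w : I → ℤ} {a b : I} (h : Min G w a b) {y : I → ℤ} (hy : 0 ≤ y)
    (hs : ∀ c, 0 < y c → 0 < w c) : bil G w y = y a + y b := by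
  classical
  rw [bil_eq_gr, ← Finset.add_sum_erase _ _ (Finset.mem_univ a), ← Finset.add_sum_erase _ _
    (Finset.mem_erase.2 ⟨h.ne.symm, Finset.mem_univ b⟩), h.gfst, h.gsnd, Finset.sum_eq_zero]
  · ring
  · intro c hc
    simp only [Finset.mem_erase] at hc
    rcases (show 0 ≤ y c from hy c).eq_or_lt with h1 | h1
    · rw [← h1, mul_zero]
    · rw [h.rest c (hs c h1) hc.2.1 hc.1, zero_mul]

theorem UF.exists_minimal (h : UF G) {x : I → ℤ} (hx : Root G x) {a b : I} (hab : a ≠ b)
    (ha : 0 < x a) (hb : 0 < x b) : ∃ w, w ≤ x ∧ Min G w a b := by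
  classical
  obtain ⟨w, hw0, hwx, ⟨hw, hwa, hwb⟩, hmin⟩ :=
    exists_min (fun y => Root G y ∧ 0 < y a ∧ 0 < y b) hx.1 ⟨hx, ha, hb⟩
  have hne : ∀ c, w ≠ ev c := by
    intro c hc
    by_cases h1 : a = c
    · have : b ≠ c := fun h2 => hab (h1.trans h2.symm)
      rw [hc, ev_ne this] at hwb; omega
    · rw [hc, ev_ne h1] at hwa; omega
  have hone : ∀ c, 0 < w c → gr G w c = 1 → (c = a ∨ c = b) ∧ w c = 1 := by
    intro c hc hg
    have hr := h.root_sub hw hc hg
    by_contra hcon
    have h1 : w - ev c = w := by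
      refine hmin _ hr.1 (sub_le_self _ (ev_nonneg c)) ⟨hr, ?_, ?_⟩
      · by_cases h2 : a = c
        · subst h2
          simp only [Pi.sub_apply, ev_self]
          simp only [true_or, true_and] at hcon
          omega
        · simp only [Pi.sub_apply, ev_ne h2]; omega
      · by_cases h2 : b = c
        · subst h2
          simp only [Pi.sub_apply, ev_self]
          simp only [or_true, true_and] at hcon
          omega
        · simp only [Pi.sub_apply, ev_ne h2]; omega
    have h2 := congrFun h1 c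
    simp only [Pi.sub_apply, ev_self] at h2
    omega
  have hterm : ∀ c, gr G w c * w c ≤ 0 ∨ ((c = a ∨ c = b) ∧ w c = 1 ∧ gr G w c = 1) := by
    intro c
    rcases (show 0 ≤ w c from hw0 c).eq_or_lt with h1 | h1
    · left; rw [← h1, mul_zero]
    · have h2 := h.gr_le hw h1 (hne c)
      rcases h2.eq_or_lt with h3 | h3
      · right; exact ⟨(hone c h1 h3).1, (hone c h1 h3).2, h3⟩
      · left; exact mul_nonpos_of_nonpos_of_nonneg (by omega) h1.le
  have hsum := UF.sum_gr hw
  rw [← Finset.add_sum_erase _ _ (Finset.mem_univ a), ← Finset.add_sum_erase _ _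
    (Finset.mem_erase.2 ⟨hab.symm, Finset.mem_univ b⟩)] at hsum
  have hrest : ∀ c ∈ (Finset.univ.erase a).erase b, gr G w c * w c ≤ 0 := by
    intro c hc
    simp only [Finset.mem_erase] at hc
    rcases hterm c with h1 | h1
    · exact h1
    · rcases h1.1 with h2 | h2
      · exact absurd h2 hc.2.1
      · exact absurd h2 hc.1
  have hle := Finset.sum_nonpos hrest
  have hA : gr G w a * w a ≤ 1 := by
    rcases hterm a with h1 | h1
    · omega
    · rw [h1.2.1, h1.2.2]; omega
  have hB : gr G w b * w b ≤ 1 := by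
    rcases hterm b with h1 | h1
    · omega
    · rw [h1.2.1, h1.2.2]; omega
  have hA' : w a = 1 ∧ gr G w a = 1 := by
    rcases hterm a with h1 | h1
    · omega
    · exact h1.2
  have hB' : w b = 1 ∧ gr G w b = 1 := by
    rcases hterm b with h1 | h1
    · omega
    · exact h1.2
  refine ⟨w, hwx, hw, hab, hA'.1, hB'.1, hA'.2, hB'.2, fun c hc h1 h2 => ?_⟩
  have hz : ∑ c ∈ (Finset.univ.erase a).erase b, gr G w c * w c = 0 := by omega
  have := (Finset.sum_eq_zero_iff_of_nonpos hrest).1 hz c (by simp [h1, h2])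
  rcases mul_eq_zero.1 this with h3 | h3
  · exact h3
  · omega

end Pool.Agent.MP_bd94e8_al.H89.LwA
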