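import Pool.Agent.MP_bd94e8_al.H57B.Basic

/-!
Peaks in the support of a root are close to each other when there is no long path.
-/

set_option autoImplicit false
set_option linter.unusedSectionVars false

namespace Pool.Agent.MP_bd94e8_al.H89.LwA

section num
variable {I : Type} [Fintype I] {G : I → I → ℤ}

theorem le_ap {x y : I → ℤ} (h : x ≤ y) (c : I) : x c ≤ y c := h c

theorem gram_sum (J : Finset ℕ) (X : ℕ → I → ℤ) (h2 : ∀ j ∈ J, bil G (X j) (X j) = 2)
    (h1 : ∀ j ∈ J, ∀ k ∈ J, j ≠ k → bil G (X j) (X k) = 1) :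
    bil G (∑ j ∈ J, X j) (∑ j ∈ J, X j) = J.card * (J.card + 1) := by
  rw [bil_sum_left]
  have : ∀ j ∈ J, bil G (X j) (∑ k ∈ J, X k) = J.card + 1 := by
    intro j hj
    rw [bil_sum_right, ← Finset.add_sum_erase _ _ hj, h2 j hj,
      Finset.sum_congr rfl (g := fun _ => (1 : ℤ)) fun k hk =>
        h1 j hj k (Finset.mem_of_mem_erase hk) (Finset.ne_of_mem_erase hk).symm]
    have h3 := Finset.card_erase_add_one hj
    simp only [Finset.sum_const, nsmul_eq_mul, mul_one]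
    omega
  rw [Finset.sum_congr rfl this]
  simp

theorem five (h : UF G) {z S T W : I → ℤ} {c : I} (hW : 0 ≤ W) (hc : 0 < W c)
    (hT : T ≤ (3 : ℤ) • W) (hz : W ≤ z) (hS : (5 : ℤ) • W ≤ S) (zz : bil G z z = 2)
    (ss : bil G S S = 30) (tt : bil G T T = 12) (zs : bil G z S ≤ 0) (zt : bil G z T = 3)
    (st : bil G S T = 15) : False := by
  have hv : ∀ a, 2 * W a ≤ ((3 : ℤ) • z + S - (2 : ℤ) • T) a := by
    intro a
    have h1 := hT a
    have h2 := hz a
    have h3 := hS a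
    simp only [Pi.smul_apply, smul_eq_mul, Pi.add_apply, Pi.sub_apply] at h1 h2 h3 ⊢
    omega
  have h0 : 0 ≤ (3 : ℤ) • z + S - (2 : ℤ) • T := fun a => by
    have h1 := hv a
    have h2 : 0 ≤ W a := hW a
    show (0 : ℤ) ≤ _
    omega
  have hne : (3 : ℤ) • z + S - (2 : ℤ) • T ≠ 0 := fun h1 => by
    have h2 := hv c
    rw [h1, Pi.zero_apply] at h2
    omega
  have := h.wp _ h0 hne
  rw [h.sq_sub, h.sq_add, bil_add_left] at this
  simp only [bil_smul_left, bil_smul_right] at this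
  omega

theorem seven (h : UF G) {A A' S T U : I → ℤ} {c : I} (hU : 0 ≤ U) (hc : 0 < U c)
    (hT : T ≤ (3 : ℤ) • U) (hS : S ≤ (4 : ℤ) • U) (hA : (2 : ℤ) • U ≤ A) (hA' : (2 : ℤ) • U ≤ A')
    (aa : bil G A A ≤ 4) (aa' : bil G A' A' ≤ 4) (hle : A' ≤ A) (hne : A ≠ A')
    (ss : bil G S S = 20) (tt : bil G T T = 12) (st : bil G S T = 12) (as : bil G A S = 8)
    (as' : bil G A' S = 8) (aT : bil G A T = 6) (aT' : bil G A' T = 6) : False := by
  have h3 := h.wp _ (sub_nonneg.2 hle) (sub_ne_zero.2 hne)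
  rw [h.sq_sub] at h3
  have hv : ∀ a, U a ≤ ((2 : ℤ) • (A + A') - (S + T)) a := by
    intro a
    have h1 := hT a
    have h2 := hS a
    have h3 := hA a
    have h4 := hA' a
    simp only [Pi.smul_apply, smul_eq_mul, Pi.add_apply, Pi.sub_apply] at h1 h2 h3 h4 ⊢
    omega
  have h0 : 0 ≤ (2 : ℤ) • (A + A') - (S + T) := fun a => by
    have h1 := hv a
    have h2 : 0 ≤ U a := hU a
    show (0 : ℤ) ≤ _
    omega
  have hne' : (2 : ℤ) • (A + A') - (S + T) ≠ 0 := fun h1 => by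
    have h2 := hv c
    rw [h1, Pi.zero_apply] at h2
    omega
  have := h.wp _ h0 hne'
  rw [h.sq_sub, h.sq_add S T] at this
  simp only [bil_smul_left, bil_smul_right] at this
  rw [h.sq_add, bil_add_left, bil_add_right, bil_add_right] at this
  omega

end num

variable {ι Ω : Type} [Fintype ι] [Fintype Ω] {G : ι ⊕ Ω → ι ⊕ Ω → ℤ}

open Sum

theorem near_zero (o : Ω) : GNear G 0 o o := ⟨fun _ => o, rfl, rfl, fun _ h => absurd h (by omega)⟩

theorem near_cons {c : ℕ} {o p o' : Ω}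
    (h : o = p ∨ ∃ i, G (inl i) (inr o) = -1 ∧ G (inl i) (inr p) = -1) (hn : GNear G c p o') :
    GNear G (c + 1) o o' := by
  obtain ⟨f, h0, h1, h2⟩ := hn
  refine ⟨fun n => Nat.casesOn n o f, rfl, h1, fun n hn => ?_⟩
  cases n with
  | zero => simpa [h0] using h
  | succ n => exact h2 n (by omega)

theorem near_mono {c d : ℕ} {o o' : Ω} (hn : GNear G c o o') (h : c ≤ d) : GNear G d o o' := by
  induction h with
  | refl => exact hn
  | step _ ih => exact near_cons (Or.inl rfl) ih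

theorem gr_peak (hG : UForm G) (x : ι ⊕ Ω → ℤ) (o : Ω) :
    gr G x (inr o) = ∑ i, x (inl i) * G (inl i) (inr o) + 2 * x (inr o) := by
  rw [gr, Fintype.sum_sum_type, Finset.sum_eq_single o, hG.diag, mul_comm (x (inr o))]
  · intro p _ hp; rw [hG.pp p o hp, mul_zero]
  · simp

/-- A minimal root for two peaks with the only vertex at the first peak. -/
structure Top (G : ι ⊕ Ω → ι ⊕ Ω → ℤ) (X : ι ⊕ Ω → ℤ) (o o' : Ω) (Y : ι) : Prop where
  min : Min G X (inr o) (inr o')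
  one : X (inl Y) = 1
  on : G (inl Y) (inr o) = -1
  uniq : ∀ j, G (inl j) (inr o) = -1 → j ≠ Y → X (inl j) = 0

theorem exists_top (hG : UForm G) {X : ι ⊕ Ω → ℤ} {o o' : Ω} (h : Min G X (inr o) (inr o')) :
    ∃ Y, Top G X o o' Y := by
  classical
  have h1 := h.gfst
  rw [gr_peak hG, h.fst] at h1
  have hx : ∀ c, 0 ≤ X c := h.root.1
  have hle : ∀ i, X (inl i) * G (inl i) (inr o) ≤ 0 := by
    intro i
    have := hx (inl i)
    rcases hG.vp i o with h2 | h2 <;> rw [h2] <;> omega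
  have : ∃ Y, X (inl Y) * G (inl Y) (inr o) ≠ 0 := by
    by_contra hcon
    push Not at hcon
    rw [Finset.sum_eq_zero fun i _ => hcon i] at h1
    omega
  obtain ⟨Y, hY⟩ := this
  rw [← Finset.add_sum_erase _ _ (Finset.mem_univ Y)] at h1
  have h2 : ∑ i ∈ Finset.univ.erase Y, X (inl i) * G (inl i) (inr o) ≤ 0 :=
    Finset.sum_nonpos fun i _ => hle i
  have h3 := hle Y
  have h4 : G (inl Y) (inr o) = -1 := by
    rcases hG.vp Y o with h5 | h5
    · rw [h5, mul_zero] at hY; exact absurd rfl hY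
    · exact h5
  rw [h4] at h1 h3 hY
  refine ⟨Y, h, by omega, h4, fun j hj hne => ?_⟩
  have h5 : ∑ i ∈ Finset.univ.erase Y, X (inl i) * G (inl i) (inr o) = 0 := by omega
  have h6 := (Finset.sum_eq_zero_iff_of_nonpos fun i _ => hle i).1 h5 j (by simp [hne])
  rw [hj] at h6
  omega

namespace Top
variable {X : ι ⊕ Ω → ℤ} {o o' : Ω} {Y : ι}

theorem gy (h : Top G X o o' Y) : gr G X (inl Y) = 0 :=
  h.min.rest _ (by rw [h.one]; omega) (by simp) (by simp)

theorem other (hG : UForm G) (h : Top G X o o' Y) :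
    ∃ p, p ≠ o ∧ G (inl Y) (inr p) = -1 ∧ 0 < X (inr p) := by
  classical
  by_contra hcon
  push Not at hcon
  have hx : ∀ c, 0 ≤ X c := h.min.root.1
  have h1 := h.gy
  rw [gr, Fintype.sum_sum_type, Finset.sum_eq_single o, h.min.fst, hG.symm (inr o), h.on,
    ← Finset.add_sum_erase _ _ (Finset.mem_univ Y), hG.diag, h.one] at h1
  · have : 0 ≤ ∑ i ∈ Finset.univ.erase Y, X (inl i) * G (inl i) (inl Y) :=
      Finset.sum_nonneg fun i _ => mul_nonneg (hx _) (hG.vv _ _)
    omega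
  · intro p _ hp
    rw [hG.symm]
    rcases hG.vp Y p with h2 | h2
    · rw [h2, mul_zero]
    · have h3 := hcon p hp h2
      have h4 := hx (inr p)
      rw [show X (inr p) = 0 by omega, zero_mul]
  · simp

end Top

/-- The root that is left after removing the first peak and its vertex. -/
noncomputable def zz (X : ι ⊕ Ω → ℤ) (o : Ω) (Y : ι) : ι ⊕ Ω → ℤ :=
  X - ev (inr o) - ev (inl Y)

theorem zz_le (X : ι ⊕ Ω → ℤ) (o : Ω) (Y : ι) : zz X o Y ≤ X - ev (inr o) :=
  sub_le_self _ (ev_nonneg _)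

theorem zz_le' (X : ι ⊕ Ω → ℤ) (o : Ω) (Y : ι) : zz X o Y ≤ X :=
  (zz_le X o Y).trans (sub_le_self _ (ev_nonneg _))

theorem zz_peak (X : ι ⊕ Ω → ℤ) {o p : Ω} (Y : ι) (h : p ≠ o) : zz X o Y (inr p) = X (inr p) := by
  simp only [zz, Pi.sub_apply]
  rw [ev_ne (by simpa using h), ev_ne (by simp)]
  omega

namespace Top
variable {X : ι ⊕ Ω → ℤ} {o o' : Ω} {Y : ι}

theorem zz_root (hG : UForm G) (h : Top G X o o' Y) : Root G (zz X o Y) := by
  have h1 := hG.uf.root_sub h.min.root (a := inr o) (by rw [h.min.fst]; omega) h.min.gfst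
  refine hG.uf.root_sub h1 ?_ ?_
  · rw [Pi.sub_apply, ev_ne (by simp), h.one]; omega
  · rw [gr_sub, h.gy, gr_ev, hG.symm, h.on]; omega

theorem zz_o (h : Top G X o o' Y) : zz X o Y (inr o) = 0 := by
  simp only [zz, Pi.sub_apply]
  rw [ev_self, ev_ne (by simp), h.min.fst]
  omega

theorem zz_v (h : Top G X o o' Y) (j : ι) (hj : G (inl j) (inr o) = -1) : zz X o Y (inl j) = 0 := by
  simp only [zz, Pi.sub_apply]
  rw [ev_ne (by simp)]
  by_cases h1 : j = Y
  · rw [h1, ev_self, h.one]; omega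
  · rw [ev_ne (by simpa using h1), h.uniq j hj h1]; omega

theorem below_o (h : Top G X o o' Y) {b : ι ⊕ Ω → ℤ} (hb : 0 ≤ b)
    (hs : ∀ c, 0 < b c → 0 < zz X o Y c) : b (inr o) = 0 := by
  have h1 : 0 ≤ b (inr o) := hb _
  have h2 := hs (inr o)
  rw [h.zz_o] at h2
  omega

theorem below_gr (hG : UForm G) (h : Top G X o o' Y) {b : ι ⊕ Ω → ℤ} (hb : 0 ≤ b)
    (hs : ∀ c, 0 < b c → 0 < zz X o Y c) : gr G b (inr o) = 0 := by
  rw [gr_peak hG, h.below_o hb hs, Finset.sum_eq_zero]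
  · omega
  · intro i _
    rcases hG.vp i o with h1 | h1
    · rw [h1, mul_zero]
    · have h2 : 0 ≤ b (inl i) := hb _
      have h3 := hs (inl i)
      rw [h.zz_v i h1] at h3
      rw [show b (inl i) = 0 by omega, zero_mul]

theorem below_bil (h : Top G X o o' Y) {b : ι ⊕ Ω → ℤ} (hb : 0 ≤ b)
    (hs : ∀ c, 0 < b c → 0 < zz X o Y c) : bil G X b = b (inr o') := by
  rw [h.min.bil_eq hb fun c hc => lt_of_lt_of_le (hs c hc) (zz_le' X o Y c), h.below_o hb hs]
  omega

theorem below_zz (hG : UForm G) (h : Top G X o o' Y) {b : ι ⊕ Ω → ℤ} (hb : 0 ≤ b)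
    (hs : ∀ c, 0 < b c → 0 < zz X o Y c) :
    bil G (zz X o Y) b = b (inr o') - gr G b (inl Y) := by
  have h1 := h.below_bil hb hs
  have h2 := h.below_gr hG hb hs
  rw [zz, bil_sub_left, bil_sub_left, hG.uf.ev_bil, hG.uf.ev_bil, h1, h2]
  omega

/-- An elementary step gives orthogonal vertices. -/
theorem elem (hG : UForm G) (h : Top G X o o' Y) {p : Ω} {Z : ι}
    (h' : Top G (zz X o Y) p o' Z) : G (inl Y) (inl Z) = 0 := by
  have h1 := h'.gy
  have h2 : 0 < X (inl Z) := by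
    have := le_ap (zz_le' X o Y) (inl Z)
    rw [h'.one] at this
    omega
  have h3 : G (inl Z) (inr o) = 0 := by
    rcases hG.vp Z o with h4 | h4
    · exact h4
    · have h5 := h.zz_v Z h4
      rw [h'.one] at h5
      omega
  rw [zz, gr_sub, gr_sub, gr_ev, gr_ev, h.min.rest _ h2 (by simp) (by simp), hG.symm (inr o),
    h3] at h1
  omega

theorem next (hG : UForm G) (h : Top G X o o' Y) (hn : ¬ GNear G 1 o o') :
    ∃ X' p Z, Top G X' p o' Z ∧ X' ≤ zz X o Y ∧ G (inl Y) (inr p) = -1 ∧ p ≠ o := by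
  obtain ⟨p, h1, h2, h3⟩ := h.other hG
  have hp : p ≠ o' := by
    rintro rfl
    exact hn (near_cons (Or.inr ⟨Y, h.on, h2⟩) (near_zero _))
  have ho : o' ≠ o := fun h4 => h.min.ne (by rw [h4])
  obtain ⟨w, hw, hmin⟩ := hG.uf.exists_minimal (h.zz_root hG) (a := inr p) (b := inr o')
    (by simpa using hp) (by rw [zz_peak _ _ h1]; exact h3)
    (by rw [zz_peak _ _ ho, h.min.snd]; omega)
  obtain ⟨Z, hZ⟩ := exists_top hG hmin
  exact ⟨w, p, Z, hZ, hw, h2, h1⟩

end Top

/-- A chain of minimal roots. -/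
structure Chain (G : ι ⊕ Ω → ι ⊕ Ω → ℤ) (n : ℕ) (X : ℕ → ι ⊕ Ω → ℤ) (o : ℕ → Ω) (o' : Ω)
    (Y : ℕ → ι) : Prop where
  top : ∀ j ≤ n, Top G (X j) (o j) o' (Y j)
  le : ∀ j < n, X (j + 1) ≤ zz (X j) (o j) (Y j)
  on : ∀ j < n, G (inl (Y j)) (inr (o (j + 1))) = -1
  ne : ∀ j < n, o (j + 1) ≠ o j
  far : ∀ j ≤ n, ¬ GNear G 2 (o j) o'

theorem exists_chain (hG : UForm G) (o' : Ω) (n : ℕ) : ∀ (X0 : ι ⊕ Ω → ℤ) (o0 : Ω) (Y0 : ι),
    Top G X0 o0 o' Y0 → ¬ GNear G (n + 2) o0 o' →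
      ∃ X o Y, Chain G n X o o' Y ∧ X 0 = X0 ∧ o 0 = o0 ∧ Y 0 = Y0 := by
  induction n with
  | zero =>
    intro X0 o0 Y0 h hn
    exact ⟨fun _ => X0, fun _ => o0, fun _ => Y0, ⟨fun _ _ => h, fun _ h => absurd h (by omega),
      fun _ h => absurd h (by omega), fun _ h => absurd h (by omega), fun _ _ => hn⟩, rfl, rfl, rfl⟩
  | succ n ih =>
    intro X0 o0 Y0 h hn
    obtain ⟨X1, o1, Y1, h1, h2, h3, h4⟩ := h.next hG fun h5 => hn (near_mono h5 (by omega))
    obtain ⟨X, o, Y, hc, e1, e2, e3⟩ := ih X1 o1 Y1 h1 fun h5 =>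
      hn (near_cons (Or.inr ⟨Y0, h.on, h3⟩) h5)
    refine ⟨fun j => Nat.casesOn j X0 X, fun j => Nat.casesOn j o0 o, fun j => Nat.casesOn j Y0 Y,
      ⟨?_, ?_, ?_, ?_, ?_⟩, rfl, rfl, rfl⟩
    · intro j hj
      cases j with
      | zero => exact h
      | succ j => exact hc.top j (by omega)
    · intro j hj
      cases j with
      | zero => subst e1; exact h2
      | succ j => exact hc.le j (by omega)
    · intro j hj
      cases j with
      | zero => subst e2; exact h3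
      | succ j => exact hc.on j (by omega)
    · intro j hj
      cases j with
      | zero => subst e2; exact h4
      | succ j => exact hc.ne j (by omega)
    · intro j hj
      cases j with
      | zero => exact fun h5 => hn (near_mono h5 (by omega))
      | succ j => exact hc.far j (by omega)

namespace Chain
variable {n : ℕ} {X : ℕ → ι ⊕ Ω → ℤ} {o : ℕ → Ω} {o' : Ω} {Y : ℕ → ι}

theorem anti (h : Chain G n X o o' Y) {j k : ℕ} (hjk : j ≤ k) (hk : k ≤ n) : X k ≤ X j := by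
  induction hjk with
  | refl => exact le_rfl
  | step h1 ih => exact ((h.le _ hk).trans (zz_le' _ _ _)).trans (ih (by omega))

theorem le_zz (h : Chain G n X o o' Y) {j k : ℕ} (hjk : j < k) (hk : k ≤ n) :
    X k ≤ zz (X j) (o j) (Y j) := (h.anti hjk hk).trans (h.le j (by omega))

theorem root (h : Chain G n X o o' Y) {j : ℕ} (hj : j ≤ n) : Root G (X j) := (h.top j hj).min.root

theorem pair (hG : UForm G) (h : Chain G n X o o' Y) {j k : ℕ} (hj : j ≤ n) (hk : k ≤ n)
    (hne : j ≠ k) : bil G (X j) (X k) = 1 := by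
  have key : ∀ j k, j < k → k ≤ n → bil G (X j) (X k) = 1 := by
    intro j k h1 h2
    rw [(h.top j (by omega)).below_bil (h.root h2).1
      fun c hc => lt_of_lt_of_le hc (h.le_zz h1 h2 c), (h.top k h2).min.snd]
  rcases lt_or_gt_of_ne hne with h1 | h1
  · exact key j k h1 hk
  · rw [hG.uf.comm]; exact key k j h1 hj

/-- The vector at the far end of the chain. -/
theorem exists_end (hG : UForm G) (h : Chain G n X o o' Y) : ∃ T : ι ⊕ Ω → ℤ, 0 ≤ T ∧
    T ≤ (3 : ℤ) • X n ∧ bil G T T = 12 ∧ (∀ j ≤ n, bil G (X j) T = 3) ∧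
      ∀ j < n, bil G (zz (X j) (o j) (Y j)) T = 3 := by
  obtain ⟨Z, hZ⟩ := exists_top hG (h.top n le_rfl).min.symm
  obtain ⟨p, hp, hZp, hXp⟩ := hZ.other hG
  have hx : ∀ c, 0 ≤ X n c := (h.root le_rfl).1
  set T : ι ⊕ Ω → ℤ := (3 : ℤ) • ev (inr o') + (2 : ℤ) • ev (inl Z) + ev (inr p) with hT
  have hT0 : 0 ≤ T := add_nonneg (add_nonneg (smul_nonneg (by omega) (ev_nonneg _))
    (smul_nonneg (by omega) (ev_nonneg _))) (ev_nonneg _)
  have hTp : ∀ q, q ≠ p → q ≠ o' → T (inr q) = 0 := by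
    intro q h1 h2
    simp only [hT, Pi.add_apply, Pi.smul_apply, smul_eq_mul]
    rw [ev_ne (by simpa using h2), ev_ne (by simp), ev_ne (by simpa using h1)]
    omega
  have hTo : T (inr o') = 3 := by
    simp only [hT, Pi.add_apply, Pi.smul_apply, smul_eq_mul]
    rw [ev_self, ev_ne (by simp), ev_ne (by simpa using hp.symm)]
    omega
  have hle : T ≤ (3 : ℤ) • X n := by
    intro c
    have h0 := hx c
    simp only [hT, Pi.add_apply, Pi.smul_apply, smul_eq_mul]
    by_cases h1 : c = inr o'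
    · rw [h1, ev_self, ev_ne (by simp), ev_ne (by simpa using hp.symm), hZ.min.fst]; omega
    by_cases h2 : c = inl Z
    · rw [h2, ev_self, ev_ne (by simp), ev_ne (by simp), hZ.one]; omega
    by_cases h3 : c = inr p
    · rw [h3, ev_self, ev_ne (by simpa using hp), ev_ne (by simp)]; omega
    rw [ev_ne h1, ev_ne h2, ev_ne h3]; omega
  have hs : ∀ c, 0 < T c → 0 < X n c := by
    intro c hc
    have := hle c
    simp only [Pi.smul_apply, smul_eq_mul] at this
    omega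
  have hgr : ∀ c, gr G T c = 3 * G (inr o') c + 2 * G (inl Z) c + G (inr p) c := by
    intro c
    rw [hT, gr_add, gr_add, gr_smul, gr_smul, gr_ev, gr_ev, gr_ev]
  have hpo : GNear G 1 p o' := near_cons (Or.inr ⟨Z, hZp, hZ.on⟩) (near_zero _)
  refine ⟨T, hT0, hle, ?_, fun j hj => ?_, fun j hj => ?_⟩
  · conv_lhs => arg 3; rw [hT]
    rw [bil_add_right, bil_add_right, bil_smul_right, bil_smul_right, bil_ev, bil_ev, bil_ev,
      hgr, hgr, hgr, hG.diag, hG.diag, hG.diag, hG.symm (inr o') (inl Z), hG.symm (inr p) (inl Z),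
      hZ.on, hZp, hG.pp p o' hp, hG.pp o' p hp.symm]
    omega
  · rw [(h.top j hj).min.bil_eq hT0 fun c hc => lt_of_lt_of_le (hs c hc) (h.anti hj le_rfl c),
      hTo, hTp]
    · omega
    · intro h1
      exact h.far j hj (h1 ▸ near_mono hpo (by omega))
    · intro h1
      exact h.far j hj (h1 ▸ near_mono (near_zero _) (by omega))
  · have hY := (h.top j hj.le).on
    have hf := h.far j hj.le
    have h1 : G (inl (Y j)) (inr o') = 0 := (hG.vp _ _).resolve_right fun h1 =>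
      hf (near_mono (near_cons (Or.inr ⟨_, hY, h1⟩) (near_zero _)) (by omega))
    have h2 : G (inl (Y j)) (inr p) = 0 := (hG.vp _ _).resolve_right fun h1 =>
      hf (near_cons (Or.inr ⟨_, hY, h1⟩) hpo)
    have h3 : G (inl Z) (inl (Y j)) = 0 := by
      by_contra h4
      have h5 : Z ≠ Y j := by
        intro h5
        have := hZ.on
        rw [h5, h1] at this
        omega
      obtain ⟨q, h6, h7⟩ := hG.share _ _ h5 h4
      exact hf (near_cons (Or.inr ⟨_, hY, h7⟩) (near_cons (Or.inr ⟨_, h6, hZ.on⟩) (near_zero _)))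
    rw [(h.top j hj.le).below_zz hG hT0
      fun c hc => lt_of_lt_of_le (hs c hc) (h.le_zz hj le_rfl c), hTo, hgr, hG.symm (inr o'),
      hG.symm (inr p), h1, h2, h3]
    omega

open Classical in
/-- At most four later roots have the wrong product. -/
theorem bad_le (hG : UForm G) (h : Chain G n X o o' Y) {i : ℕ} (J : Finset ℕ)
    (hJ : ∀ j ∈ J, i + 1 < j ∧ j ≤ n) :
    (J.filter fun j => bil G (zz (X i) (o i) (Y i)) (X j) ≠ 1).card ≤ 4 := by
  by_contra hcon
  obtain ⟨K, hK, hc⟩ := Finset.exists_subset_card_eq (n := 5)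
    (s := J.filter fun j => bil G (zz (X i) (o i) (Y i)) (X j) ≠ 1) (by omega)
  have hK' : ∀ j ∈ K, (i + 1 < j ∧ j ≤ n) ∧ bil G (zz (X i) (o i) (Y i)) (X j) ≠ 1 := fun j hj =>
    ⟨hJ j (Finset.mem_filter.1 (hK hj)).1, (Finset.mem_filter.1 (hK hj)).2⟩
  obtain ⟨j0, hj0⟩ : K.Nonempty := Finset.card_pos.1 (by omega)
  have hi : i < n := by have := (hK' j0 hj0).1; omega
  obtain ⟨T, -, hT, tt, xt, zt⟩ := h.exists_end hG
  have hz := (h.top i hi.le).zz_root hG
  refine five hG.uf (z := zz (X i) (o i) (Y i)) (S := ∑ j ∈ K, X j) (c := inr o')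
    (h.root le_rfl).1 (by rw [(h.top n le_rfl).min.snd]; omega) hT (h.le_zz hi le_rfl) ?_ hz.2 ?_
    tt ?_ (zt i hi) ?_
  · have := Finset.card_nsmul_le_sum K X (X n) fun j hj => h.anti (hK' j hj).1.2 le_rfl
    rw [hc] at this
    exact_mod_cast this
  · rw [gram_sum K X (fun j hj => (h.root (hK' j hj).1.2).2)
      fun j hj k hk hne => h.pair hG (hK' j hj).1.2 (hK' k hk).1.2 hne, hc]
    norm_num
  · rw [bil_sum_right]
    refine Finset.sum_nonpos fun j hj => ?_
    obtain ⟨⟨h1, h2⟩, h3⟩ := hK' j hj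
    have h4 := hG.uf.root_le hz (h.root h2) (h.le_zz (by omega) h2) fun h5 => by
      have h6 := (h.top (i + 1) hi).below_o (h.root h2).1
        fun c hc => lt_of_lt_of_le hc (h.le_zz h1 h2 c)
      have h7 := le_ap (h.le i hi) (inr (o (i + 1)))
      rw [h5, h6, (h.top (i + 1) hi).min.fst] at h7
      omega
    omega
  · rw [bil_sum_left, Finset.sum_congr rfl fun j hj => xt j (hK' j hj).1.2]
    simp [hc]

end Chain

/-- The vector attached to a step of the chain. -/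
noncomputable def aa (X : ℕ → ι ⊕ Ω → ℤ) (o : ℕ → Ω) (Y : ℕ → ι) (i : ℕ) : ι ⊕ Ω → ℤ :=
  zz (X i) (o i) (Y i) + (X (i + 1) - ev (inr (o (i + 1))))

namespace Chain
variable {n : ℕ} {X : ℕ → ι ⊕ Ω → ℤ} {o : ℕ → Ω} {o' : Ω} {Y : ℕ → ι}

theorem aa_sq (hG : UForm G) (h : Chain G n X o o' Y) {i : ℕ} (hi : i < n)
    (hne : zz (X i) (o i) (Y i) ≠ X (i + 1)) : bil G (aa X o Y i) (aa X o Y i) ≤ 4 := by
  have ht := h.top i hi.le
  have ht' := h.top (i + 1) hi
  have hz := ht.zz_root hG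
  have h1 := hG.uf.root_le hz ht'.min.root (h.le i hi) hne
  have h2 := hG.uf.root_sub ht'.min.root (a := inr (o (i + 1))) (by rw [ht'.min.fst]; omega)
    ht'.min.gfst
  have h3 : gr G (zz (X i) (o i) (Y i)) (inr (o (i + 1))) = 1 := by
    have h4 : 0 < X i (inr (o (i + 1))) := by
      have := le_ap (h.anti (k := i + 1) (Nat.le_succ i) hi) (inr (o (i + 1)))
      rw [ht'.min.fst] at this
      omega
    rw [zz, gr_sub, gr_sub, gr_ev, gr_ev, ht.min.rest _ h4 (by simpa using h.ne i hi) ht'.min.ne,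
      hG.pp _ _ (h.ne i hi).symm, h.on i hi]
    omega
  rw [aa, hG.uf.sq_add, hz.2, h2.2, bil_sub_right, bil_ev, h3]
  omega

theorem aa_bil (hG : UForm G) (h : Chain G n X o o' Y) {i : ℕ} (hi : i < n) {b : ι ⊕ Ω → ℤ}
    (hb : 0 ≤ b) (hs : ∀ c, 0 < b c → 0 < zz (X (i + 1)) (o (i + 1)) (Y (i + 1)) c) :
    bil G (aa X o Y i) b = bil G (zz (X i) (o i) (Y i)) b + bil G (X (i + 1)) b := by
  rw [aa, bil_add_left, bil_sub_left, hG.uf.ev_bil, (h.top (i + 1) hi).below_gr hG hb hs]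
  omega

theorem le_aa (h : Chain G n X o o' Y) {i k : ℕ} (hi : i + 1 < k) (hk : k ≤ n) :
    (2 : ℤ) • X k ≤ aa X o Y i := by
  rw [two_smul]
  exact add_le_add (h.le_zz (by omega) hk) ((h.le_zz hi hk).trans (zz_le _ _ _))

/-- There are no two early steps that are not elementary. -/
theorem two (hG : UForm G) (h : Chain G n X o o' Y) {i i' : ℕ} (hii : i < i') (hn : i' + 13 < n)
    (h1 : zz (X i) (o i) (Y i) ≠ X (i + 1)) (h2 : zz (X i') (o i') (Y i') ≠ X (i' + 1)) :
    False := by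
  classical
  set J := Finset.Ico (i' + 2) (i' + 14) with hJ
  have hJ' : ∀ j ∈ J, i' + 1 < j ∧ j ≤ n := fun j hj => by
    have := Finset.mem_Ico.1 hj
    omega
  have b1 := h.bad_le hG (i := i) J fun j hj => by have := hJ' j hj; omega
  have b2 := h.bad_le hG (i := i') J hJ'
  have hc : J.card = 12 := by rw [hJ, Nat.card_Ico]; omega
  set B1 := J.filter fun j => bil G (zz (X i) (o i) (Y i)) (X j) ≠ 1 with hB1
  set B2 := J.filter fun j => bil G (zz (X i') (o i') (Y i')) (X j) ≠ 1 with hB2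
  have h3 := Finset.card_union_le B1 B2
  have h4 := Finset.le_card_sdiff (B1 ∪ B2) J
  obtain ⟨K, hK, hKc⟩ := Finset.exists_subset_card_eq (n := 4) (s := J \ (B1 ∪ B2)) (by omega)
  have hK' : ∀ j ∈ K, (i' + 1 < j ∧ j ≤ n) ∧ bil G (zz (X i) (o i) (Y i)) (X j) = 1 ∧
      bil G (zz (X i') (o i') (Y i')) (X j) = 1 := by
    intro j hj
    have h5 := Finset.mem_sdiff.1 (hK hj)
    have h6 := h5.2
    simp only [hB1, hB2, Finset.mem_union, Finset.mem_filter, h5.1, true_and, not_or,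
      not_not] at h6
    exact ⟨hJ' j h5.1, h6⟩
  obtain ⟨T, hT0, hT, tt, xt, zt⟩ := h.exists_end hG
  have hU : i' + 2 ≤ n := by omega
  have hsT : ∀ l, l + 1 < n → ∀ c, 0 < T c → 0 < zz (X (l + 1)) (o (l + 1)) (Y (l + 1)) c := by
    intro l hl c hc
    have h5 := hT c
    have h6 := le_ap (h.le_zz hl le_rfl) c
    simp only [Pi.smul_apply, smul_eq_mul] at h5
    omega
  have hS : ∀ l, l ≤ i' → (∀ j ∈ K, bil G (zz (X l) (o l) (Y l)) (X j) = 1) →
      bil G (aa X o Y l) (∑ j ∈ K, X j) = 8 := by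
    intro l hl h5
    rw [bil_sum_right, Finset.sum_congr rfl (g := fun _ => (2 : ℤ))]
    · simp [hKc]
    · intro j hj
      obtain ⟨h6, h7⟩ := (hK' j hj).1
      rw [h.aa_bil hG (by omega) (h.root h7).1
        fun c hc => lt_of_lt_of_le hc (h.le_zz (by omega) h7 c), h5 j hj,
        h.pair hG (by omega) h7 (by omega)]
      omega
  have hdiff : ∀ c, aa X o Y i' c + ev (inr (o (i' + 1))) c ≤ aa X o Y i c := by
    intro c
    have h5 := (zz_le' (X i') (o i') (Y i')).trans (h.le_zz hii (by omega)) c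
    have h6 := (h.le_zz (j := i + 1) (k := i' + 1) (by omega) (by omega)).trans (zz_le _ _ _) c
    simp only [aa, Pi.add_apply, Pi.sub_apply] at h5 h6 ⊢
    omega
  refine seven hG.uf (A := aa X o Y i) (A' := aa X o Y i') (S := ∑ j ∈ K, X j) (T := T)
    (U := X (i' + 2)) (c := inr o') (h.root hU).1 (by rw [(h.top _ hU).min.snd]; omega)
    (hT.trans (smul_le_smul_of_nonneg_left (h.anti hU le_rfl) (by omega))) ?_
    (h.le_aa (by omega) hU) (h.le_aa (by omega) hU) (h.aa_sq hG (by omega) h1)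
    (h.aa_sq hG (by omega) h2) ?_ ?_ ?_ tt ?_ (hS i hii.le fun j hj => (hK' j hj).2.1)
    (hS i' le_rfl fun j hj => (hK' j hj).2.2) ?_ ?_
  · have := Finset.sum_le_card_nsmul K X (X (i' + 2)) fun j hj =>
      h.anti (hK' j hj).1.1 (hK' j hj).1.2
    rw [hKc] at this
    exact_mod_cast this
  · intro c
    have h5 := hdiff c
    have h6 : 0 ≤ ev (inr (o (i' + 1))) c := ev_nonneg _ c
    show aa X o Y i' c ≤ aa X o Y i c
    omega
  · intro h5
    have h6 := hdiff (inr (o (i' + 1)))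
    rw [h5, ev_self] at h6
    omega
  · rw [gram_sum K X (fun j hj => (h.root (hK' j hj).1.2).2)
      fun j hj k hk hne => h.pair hG (hK' j hj).1.2 (hK' k hk).1.2 hne, hKc]
    norm_num
  · rw [bil_sum_left, Finset.sum_congr rfl fun j hj => xt j (hK' j hj).1.2]
    simp [hKc]
  · rw [h.aa_bil hG (by omega) hT0 (hsT i (by omega)), zt i (by omega), xt _ (by omega)]
    omega
  · rw [h.aa_bil hG (by omega) hT0 (hsT i' (by omega)), zt i' (by omega), xt _ (by omega)]
    omega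

/-- A window of elementary steps is a path. -/
theorem window (hG : UForm G) (h : Chain G n X o o' Y) {L : ℕ} (hL : GNoPath G L) (s : ℕ)
    (hs : s + L ≤ n) : ∃ i, s ≤ i ∧ i < s + L ∧ zz (X i) (o i) (Y i) ≠ X (i + 1) := by
  by_contra hcon
  push Not at hcon
  refine hL (fun m => Y (s + m)) (fun m => o (s + m)) fun m hm => ?_
  have h1 : s + m < n := by omega
  have h2 := h.top (s + m + 1) h1
  refine ⟨(h.top _ h1.le).on, h.on _ h1, (h.ne _ h1).symm, ?_, h2.on⟩
  rw [← hcon (s + m) (by omega) (by omega)] at h2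
  exact (h.top _ h1.le).elem hG h2

end Chain

end Pool.Agent.MP_bd94e8_al.H89.LwA

namespace Pool.Agent.MP_bd94e8_al.H89

open LwA in
theorem lw : SLW := by
  intro ι Ω _ _ G L hG hL x hx hxx o o' ho ho'
  by_contra hcon
  have hne : o ≠ o' := by
    rintro rfl
    exact hcon (near_mono (near_zero _) (by omega))
  obtain ⟨w, -, hw⟩ := hG.uf.exists_minimal (x := x) ⟨hx, hxx⟩ (a := .inr o) (b := .inr o')
    (by simpa using hne) ho ho'
  obtain ⟨Y0, hY0⟩ := exists_top hG hw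
  obtain ⟨X, p, Y, hc, -⟩ := exists_chain hG o' (2 * L + 18) w o Y0 hY0 hcon
  obtain ⟨i, -, h1, h2⟩ := hc.window hG hL 0 (by omega)
  obtain ⟨i', h3, h4, h5⟩ := hc.window hG hL L (by omega)
  exact hc.two hG (i := i) (i' := i') (by omega) (by omega) h2 h5

end Pool.Agent.MP_bd94e8_al.H89
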